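import Pool.Agent.D0H11.GY.Stm
import Pool.Agent.D0H17.GM.Pu

/-! Project GY, module PU2: the measure of the parameters for which two given numbers are prime, general
coefficients. Adaptation of helper17's module PU. -/

set_option autoImplicit false

namespace Pool.Agent.D0H20.GY

open Pool.Agent.D0H11.GM (Sq S_BTM)
open Pool.Agent.D0H11.GY
open Pool.Agent.D0H17.GM (BT meas_prime affine)
open Finset MeasureTheory Filter

/-- the set for the coefficients `A B A' B'` -/
def SS (c : ℝ × ℝ) (r : ℝ) (A B A' B' : ℝ) : Set (ℝ × ℝ) :=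
  {a | a ∈ Metric.closedBall c r ∧ (⌊a.1 * A + a.2 * B⌋₊ + 1).Prime ∧
    (⌊a.1 * A' + a.2 * B'⌋₊ + 1).Prime}

theorem meas_SS (c : ℝ × ℝ) (r : ℝ) (A B A' B' : ℝ) : MeasurableSet (SS c r A B A' B') := by
  unfold SS
  apply MeasurableSet.inter
  · exact measurableSet_closedBall
  · apply MeasurableSet.inter
    · exact meas_prime (by fun_prop)
    · exact meas_prime (by fun_prop)

/-- `Φ` -/
theorem shear (c : ℝ × ℝ) (r : ℝ) (A B A' B' : ℝ) (hA : 0 < A) :
    volume (SS c r A B A' B') = ENNReal.ofReal A⁻¹ *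
      ∫⁻ L : ℝ, volume {β : ℝ | ((L - β * B) / A, β) ∈ SS c r A B A' B'} := by
  have hm := meas_SS c r A B A' B'
  set S := SS c r A B A' B' with hS
  have hu : A ≠ 0 := hA.ne'
  set T : Set (ℝ × ℝ) := {p | ((p.1 - p.2 * B) / A, p.2) ∈ S} with hT
  have hTm : MeasurableSet T := by
    have : Measurable fun p : ℝ × ℝ => ((p.1 - p.2 * B) / A, p.2) := by fun_prop
    exact this hm
  have h1 : volume S = ∫⁻ β : ℝ, volume ((fun α : ℝ => (α, β)) ⁻¹' S) := by
    rw [Measure.volume_eq_prod, Measure.prod_apply_symm hm]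
  have h2 : ∀ β : ℝ, volume ((fun α : ℝ => (α, β)) ⁻¹' S) =
      ENNReal.ofReal A⁻¹ * volume ((fun L : ℝ => (L, β)) ⁻¹' T) := by
    intro β
    have h3 : (fun α : ℝ => (α, β)) ⁻¹' S = (fun α : ℝ => A * α) ⁻¹'
        ((fun t : ℝ => t + β * B) ⁻¹' ((fun L : ℝ => (L, β)) ⁻¹' T)) := by
      ext α
      simp only [Set.mem_preimage, hT, Set.mem_ofPred_eq]
      have e : (A * α + β * B - β * B) / A = α := by
        field_simp
        ring
      rw [e]
    rw [h3, Real.volume_preimage_mul_left hu, measure_preimage_add_right, abs_of_pos (by positivity)]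
  rw [h1, lintegral_congr h2, lintegral_const_mul' _ _ ENNReal.ofReal_ne_top]
  congr 1
  rw [← Measure.prod_apply_symm hTm, Measure.prod_apply hTm]
  rfl

theorem core {C : ℝ} (hB : BT C) (c : ℝ × ℝ) (r : ℝ) (hc : Sq c r) (M : ℕ) (hM : 1 ≤ M)
    (h1 : (M : ℝ) / 4 ≤ Real.log (r * 2 ^ (M / 2))) (h2 : 2 ≤ r * 2 ^ (M / 2)) (A B A' B' : ℝ)
    (rA : Rg M A) (rB : Rg M B) (rA' : Rg M A') (rB' : Rg M B') (hvu : B ≤ A)
    (hne : (2 : ℝ) ^ (2 * M) ≤ |A * B' - A' * B|) :
    volume (SS c r A B A' B') ≤ ENNReal.ofReal (240 * C ^ 2 * r ^ 2 / (M : ℝ) ^ 2) := by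
  have hC := hB.1
  have hr := hc.1
  have hM0 : (0 : ℝ) < M := by exact_mod_cast hM
  have hlog : 0 < Real.log (r * 2 ^ (M / 2)) := lt_of_lt_of_le (by positivity) h1
  have hpow : ∀ {a b : ℕ}, a ≤ b → (2 : ℝ) ^ a ≤ 2 ^ b := fun h => pow_le_pow_right₀ (by norm_num) h
  have hup : (0 : ℝ) < A := lt_of_lt_of_le (by positivity) rA.1
  have hvp : (0 : ℝ) < B := lt_of_lt_of_le (by positivity) rB.1
  have hup' : (0 : ℝ) < A' := lt_of_lt_of_le (by positivity) rA'.1
  have hvp' : (0 : ℝ) < B' := lt_of_lt_of_le (by positivity) rB'.1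
  set lam : ℝ → ℝ := fun L => A' / A * L with hlam
  set κ : ℝ := B' - A' * B / A with hκ
  have hκe : κ = (A * B' - A' * B) / A := by
    rw [hκ]
    field_simp
  have hκ1 : (2 : ℝ) ^ (M / 2) ≤ |κ| := by
    rw [hκe, abs_div, abs_of_pos hup, le_div_iff₀ hup]
    refine le_trans ?_ hne
    calc (2 : ℝ) ^ (M / 2) * A ≤ 2 ^ (M / 2) * 2 ^ (M + M / 2) :=
          mul_le_mul_of_nonneg_left rA.2 (by positivity)
      _ = 2 ^ (M / 2 + (M + M / 2)) := (pow_add _ _ _).symm
      _ ≤ 2 ^ (2 * M) := hpow (by omega)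
  have hκ0 : 0 < |κ| := lt_of_lt_of_le (by positivity) hκ1
  have hκne : κ ≠ 0 := abs_pos.mp hκ0
  -- inner bound
  have hin : |κ|⁻¹ * (C * (2 * r * |κ| + 1) / Real.log (2 * r * |κ| + 2)) ≤ 12 * C * r / M := by
    have h3 : r * 2 ^ (M / 2) ≤ r * |κ| := mul_le_mul_of_nonneg_left hκ1 hr.le
    have h4 : (M : ℝ) / 4 ≤ Real.log (2 * r * |κ| + 2) :=
      le_trans h1 (Real.log_le_log (by positivity) (by nlinarith))
    have h5 : |κ|⁻¹ * (C * (2 * r * |κ| + 1) / Real.log (2 * r * |κ| + 2)) =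
        C * (2 * r + |κ|⁻¹) / Real.log (2 * r * |κ| + 2) := by
      field_simp
    have h6 : |κ|⁻¹ ≤ r := by
      rw [inv_le_comm₀ hκ0 hr]
      rw [inv_le_iff_one_le_mul₀ hr]
      nlinarith
    rw [h5]
    calc C * (2 * r + |κ|⁻¹) / Real.log (2 * r * |κ| + 2) ≤ C * (2 * r + r) / ((M : ℝ) / 4) := by
          gcongr
      _ = 12 * C * r / M := by ring
  set A₁ : ℝ := (c.1 - r) * A + (c.2 - r) * B with hA₁
  set A₂ : ℝ := (c.1 + r) * A + (c.2 + r) * B with hA₂
  set Q : Set ℝ := {L | L ∈ Set.Icc A₁ A₂ ∧ (⌊L⌋₊ + 1).Prime} with hQ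
  have hA0 : 0 ≤ A₁ := by
    have h3 := hc.2.1
    have h4 := hc.2.2
    rw [hA₁]
    have : 0 ≤ c.1 - r := by linarith
    have : 0 ≤ c.2 - r := by linarith
    positivity
  have hA12 : A₂ - A₁ = 2 * r * (A + B) := by rw [hA₁, hA₂]; ring
  have hQm : volume Q ≤ ENNReal.ofReal (20 * C * r * A / M) := by
    have h3 := hB.2 A₁ A₂ hA0 (by
      have : 0 ≤ A₂ - A₁ := by rw [hA12]; positivity
      linarith)
    refine le_trans h3 (ENNReal.ofReal_le_ofReal ?_)
    rw [hA12]
    have h5 : (2 : ℝ) ^ (M / 2) ≤ A := le_trans (hpow (by omega)) rA.1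
    have h6 : r * 2 ^ (M / 2) ≤ r * A := mul_le_mul_of_nonneg_left h5 hr.le
    have h7 : r * B ≤ r * A := mul_le_mul_of_nonneg_left hvu hr.le
    have h9 : 0 < r * B := by positivity
    have h8 : (M : ℝ) / 4 ≤ Real.log (2 * r * (A + B) + 2) := by
      refine le_trans h1 (Real.log_le_log (by positivity) ?_)
      nlinarith
    calc C * (2 * r * (A + B) + 1) / Real.log (2 * r * (A + B) + 2)
        ≤ C * (5 * (r * A)) / ((M : ℝ) / 4) := by
          gcongr
          nlinarith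
      _ = 20 * C * r * A / M := by ring
  have hsec : ∀ L : ℝ, volume {β : ℝ | ((L - β * B) / A, β) ∈ SS c r A B A' B'} ≤
      Q.indicator (fun _ => ENNReal.ofReal (12 * C * r / M)) L := by
    intro L
    have key : ∀ β : ℝ, ((L - β * B) / A, β) ∈ SS c r A B A' B' →
        L ∈ Q ∧ |β - c.2| ≤ r ∧ 0 ≤ lam L + κ * β ∧ (⌊lam L + κ * β⌋₊ + 1).Prime := by
      rintro β ⟨k1, k2, k3⟩
      simp only at k2 k3
      have e1 : (L - β * B) / A * A + β * B = L := by
        field_simp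
        ring
      have e2 : (L - β * B) / A * A' + β * B' = lam L + κ * β := by
        rw [hlam, hκ]
        field_simp
        ring
      rw [e1] at k2
      rw [e2] at k3
      rw [Metric.mem_closedBall, Prod.dist_eq, max_le_iff, Real.dist_eq, Real.dist_eq] at k1
      simp only at k1
      set α : ℝ := (L - β * B) / A with hα
      have k4 := abs_le.mp k1.1
      have k5 := abs_le.mp k1.2
      have k6 := hc.2.1
      have k7 := hc.2.2
      have hα0 : 0 ≤ α := by linarith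
      have hβ0 : 0 ≤ β := by linarith
      refine ⟨⟨⟨?_, ?_⟩, k2⟩, k1.2, ?_, k3⟩
      · rw [← e1, hA₁]
        have i1 : (c.1 - r) * A ≤ α * A := mul_le_mul_of_nonneg_right (by linarith) hup.le
        have i2 : (c.2 - r) * B ≤ β * B := mul_le_mul_of_nonneg_right (by linarith) hvp.le
        linarith
      · rw [← e1, hA₂]
        have i1 : α * A ≤ (c.1 + r) * A := mul_le_mul_of_nonneg_right (by linarith) hup.le
        have i2 : β * B ≤ (c.2 + r) * B := mul_le_mul_of_nonneg_right (by linarith) hvp.le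
        linarith
      · rw [← e2]
        positivity
    by_cases hL : L ∈ Q
    · rw [Set.indicator_of_mem hL]
      refine le_trans (measure_mono fun β hβ => (key β hβ).2) ?_
      exact le_trans (affine hB (lam L) κ c.2 r hκne hr) (ENNReal.ofReal_le_ofReal hin)
    · rw [Set.indicator_of_notMem hL]
      have : {β : ℝ | ((L - β * B) / A, β) ∈ SS c r A B A' B'} = ∅ := by
        ext β
        simp only [Set.mem_ofPred_eq, Set.mem_empty_iff_false, iff_false]
        intro hβ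
        exact hL (key β hβ).1
      rw [this, measure_empty]
  rw [shear c r A B A' B' hup]
  have h3 : ∫⁻ L : ℝ, volume {β : ℝ | ((L - β * B) / A, β) ∈ SS c r A B A' B'} ≤
      ENNReal.ofReal (12 * C * r / M) * ENNReal.ofReal (20 * C * r * A / M) := by
    refine le_trans (lintegral_mono hsec) (le_trans (lintegral_indicator_const_le _ _) ?_)
    gcongr
  refine le_trans (mul_le_mul_right h3 _) ?_
  rw [← ENNReal.ofReal_mul (by positivity), ← ENNReal.ofReal_mul (by positivity)]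
  apply ENNReal.ofReal_le_ofReal
  apply le_of_eq
  field_simp
  ring

theorem ev1 {r : ℝ} (hr : 0 < r) : ∀ᶠ M : ℕ in atTop, 1 ≤ M ∧
    (M : ℝ) / 4 ≤ Real.log (r * 2 ^ (M / 2)) ∧ 2 ≤ r * (2 : ℝ) ^ (M / 2) := by
  have h0 : ∀ᶠ M : ℕ in atTop, 1 ≤ M := eventually_ge_atTop 1
  have h1 : ∀ᶠ M : ℕ in atTop, Real.log 2 / 2 - Real.log r ≤ (M : ℝ) * (Real.log 2 / 2 - 1 / 4) := by
    have hl : 0 < Real.log 2 / 2 - 1 / 4 := by
      have := Real.log_two_gt_d9
      linarith
    have := (tendsto_natCast_atTop_atTop (R := ℝ)).atTop_mul_const hl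
    exact this.eventually_ge_atTop _
  have h2 : ∀ᶠ M : ℕ in atTop, Real.log 2 ≤ (M : ℝ) / 4 := by
    have := (tendsto_natCast_atTop_atTop (R := ℝ)).atTop_div_const (show (0 : ℝ) < 4 by norm_num)
    exact this.eventually_ge_atTop _
  filter_upwards [h0, h1, h2] with M h0 h1 h2
  have h4 : ((M : ℝ) - 1) / 2 ≤ ((M / 2 : ℕ) : ℝ) := by
    have : M ≤ 2 * (M / 2) + 1 := by omega
    have h5 : (M : ℝ) ≤ 2 * ((M / 2 : ℕ) : ℝ) + 1 := by exact_mod_cast this
    linarith
  have hl2 : 0 < Real.log 2 := Real.log_pos (by norm_num)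
  have h6 : (M : ℝ) / 4 ≤ Real.log (r * 2 ^ (M / 2)) := by
    rw [Real.log_mul hr.ne' (by positivity), Real.log_pow]
    nlinarith
  refine ⟨h0, h6, ?_⟩
  have h7 : Real.log 2 ≤ Real.log (r * 2 ^ (M / 2)) := le_trans h2 h6
  exact (Real.log_le_log_iff (by norm_num) (by positivity)).1 h7

theorem t_PU2 : S_BTM → S_PU2 := by
  rintro ⟨C, hC, hB⟩
  have hBT : BT C := ⟨hC, hB⟩
  refine ⟨240 * C ^ 2, by positivity, fun c r hc => ?_⟩
  filter_upwards [ev1 hc.1] with M hM A B A' B' rA rB rA' rB' hne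
  obtain ⟨h0, h1, h2⟩ := hM
  have hset : {a : ℝ × ℝ | a ∈ Metric.closedBall c r ∧ (⌊a.1 * A + a.2 * B⌋₊ + 1).Prime ∧
      (⌊a.1 * A' + a.2 * B'⌋₊ + 1).Prime} = SS c r A B A' B' := rfl
  rw [hset]
  rcases le_total B A with h | h
  · exact core hBT c r hc M h0 h1 h2 _ _ _ _ rA rB rA' rB' h hne
  · have hs : Prod.swap ⁻¹' (SS c r A B A' B') = SS c.swap r B A B' A' := by
      ext a
      unfold SS
      simp only [Set.mem_preimage, Set.mem_ofPred_eq, Metric.mem_closedBall, Prod.dist_eq,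
        Prod.fst_swap, Prod.snd_swap]
      rw [max_comm, add_comm (a.2 * A), add_comm (a.2 * A')]
    have hsw : volume (SS c r A B A' B') = volume (Prod.swap ⁻¹' (SS c r A B A' B')) := by
      have := (Measure.measurePreserving_swap (μ := (volume : Measure ℝ))
        (ν := (volume : Measure ℝ))).measure_preimage
        (meas_SS c r A B A' B').nullMeasurableSet
      exact this.symm
    rw [hsw, hs]
    refine core hBT c.swap r ⟨hc.1, hc.2.2, hc.2.1⟩ M h0 h1 h2 _ _ _ _ rB rA rB' rA' h ?_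
    rw [abs_sub_comm] at hne
    convert hne using 2
    ring

end Pool.Agent.D0H20.GY
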